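import Mathlib

/-!
# Shortest link walks in a grid with oblique edges at the points of a lattice

The cells of the grid are the pairs `(i, j)`; the cell `(i, j)` is cut by an oblique edge (from its
lower left to its upper right corner) if `(i, j)` is in the lattice `InL`.  For such a cell `u = true`
means the upper left triangle and `u = false` the lower right triangle; for the other cells `u` has
no meaning.
-/

set_option autoImplicit false

namespace Pool.Agent.Helper96.DG3

/-- the lattice `x = c y mod R` -/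
def InL (R c x y : ℤ) : Prop := R ∣ x - c * y

instance (R c x y : ℤ) : Decidable (InL R c x y) := by
  unfold InL
  infer_instance

/-- numbers with the properties that are used -/
structure Par (R c A B t₀ s₀ : ℤ) : Prop where
  R0 : 0 < R
  c1 : 1 < c
  cR : c < R
  cc : R ∣ c * c - 1
  A4 : 4 < A
  AB : A < B
  h6 : A * (R + 1) < B * c + 2 * R
  mn : ∀ t s : ℤ, 0 ≤ t → 0 ≤ s → R ∣ t + c * s → (0 < t ∨ 0 < s) → 2 * R ≤ A * t + B * s
  eq : ∀ t s : ℤ, 0 ≤ t → 0 ≤ s → R ∣ t + c * s → A * t + B * s = 2 * R → t = t₀ ∧ s = s₀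
  t0 : 0 < t₀
  tR : t₀ < R
  s0 : 0 < s₀
  sR : s₀ < R
  tl : R ∣ t₀ + c * s₀
  v2 : A * t₀ + B * s₀ = 2 * R

/-- a straight link from the region `(i, j, u)` to the region `(i', j', u')` -/
def Link (R c i j : ℤ) (u : Bool) (i' j' : ℤ) (u' : Bool) : Prop :=
  (i' = i ∧ j' = j) ∨
  (j' = j ∧ i < i' ∧ (∀ x, i < x → x < i' → ¬ InL R c x j) ∧ (InL R c i j → u = false) ∧
    (InL R c i' j → u' = true)) ∨
  (j' = j ∧ i' < i ∧ (∀ x, i' < x → x < i → ¬ InL R c x j) ∧ (InL R c i' j → u' = false) ∧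
    (InL R c i j → u = true)) ∨
  (i' = i ∧ j < j' ∧ (∀ y, j < y → y < j' → ¬ InL R c i y) ∧ (InL R c i j → u = true) ∧
    (InL R c i j' → u' = false)) ∨
  (i' = i ∧ j' < j ∧ (∀ y, j' < y → y < j → ¬ InL R c i y) ∧ (InL R c i j' → u' = true) ∧
    (InL R c i j → u = false))

variable {R c A B t₀ s₀ : ℤ}

theorem InL.swap (hc : R ∣ c * c - 1) {x y : ℤ} (h : InL R c x y) : InL R c y x := by
  obtain ⟨n, hn⟩ := hc
  obtain ⟨m, hm⟩ := h
  refine ⟨-(c * m) - n * y, ?_⟩
  linear_combination (-c) * hm - y * hn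

theorem InL.swap_iff (hc : R ∣ c * c - 1) {x y : ℤ} : InL R c x y ↔ InL R c y x :=
  ⟨InL.swap hc, InL.swap hc⟩

/-- distance to the obstacle on the left -/
def tt (R c i j : ℤ) (u : Bool) : ℤ :=
  if InL R c i j then (if u then R else 0) else (i - c * j) % R

/-- distance to the obstacle below -/
def ss (R c i j : ℤ) (u : Bool) : ℤ :=
  if InL R c i j then (if u then 0 else R) else (j - c * i) % R

theorem ss_eq_tt (hc : R ∣ c * c - 1) (i j : ℤ) (u : Bool) : ss R c i j u = tt R c j i (!u) := by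
  unfold ss tt
  by_cases h : InL R c i j
  · rw [if_pos h, if_pos (h.swap hc)]
    cases u <;> simp
  · rw [if_neg h, if_neg (fun h' => h (h'.swap hc))]

/-- the properties of the region -/
theorem tt_spec (hR : 0 < R) (i j : ℤ) (u : Bool) :
    0 ≤ tt R c i j u ∧ tt R c i j u ≤ R ∧ R ∣ tt R c i j u - (i - c * j) ∧
      (tt R c i j u = 0 ↔ InL R c i j ∧ u = false) ∧ (tt R c i j u = R ↔ InL R c i j ∧ u = true) := by
  unfold tt
  by_cases h : InL R c i j
  · rw [if_pos h]
    cases u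
    · refine ⟨by simp, by simpa using hR.le, ?_, by simp [h], ?_⟩
      · obtain ⟨m, hm⟩ := h
        refine ⟨-m, ?_⟩
        simp only [Bool.false_eq_true, if_false]
        linarith
      · simp only [Bool.false_eq_true, if_false, and_false, iff_false]
        omega
    · refine ⟨by simpa using hR.le, by simp, ?_, ?_, by simp [h]⟩
      · obtain ⟨m, hm⟩ := h
        refine ⟨1 - m, ?_⟩
        simp only [if_true]
        linarith
      · simp only [if_true, Bool.true_eq_false, and_false, iff_false]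
        omega
  · rw [if_neg h]
    have h1 := Int.emod_nonneg (i - c * j) hR.ne'
    have h2 := Int.emod_lt_of_pos (i - c * j) hR
    refine ⟨h1, h2.le, ?_, ?_, ?_⟩
    · refine ⟨-((i - c * j) / R), ?_⟩
      have h3 := Int.emod_add_mul_ediv (i - c * j) R
      linarith
    · constructor
      · intro h3
        exact absurd (Int.dvd_of_emod_eq_zero h3) h
      · exact fun h3 => absurd h3.1 h
    · constructor
      · intro h3
        omega
      · exact fun h3 => absurd h3.1 h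

/-- a horizontal link changes the distance to the obstacle by its length -/
theorem tt_step (hR : 0 < R) {i i' j : ℤ} {u u' : Bool} (hi : i < i')
    (h : ∀ x, i < x → x < i' → ¬ InL R c x j) (hu : InL R c i j → u = false)
    (hu' : InL R c i' j → u' = true) : tt R c i' j u' - tt R c i j u = i' - i := by
  obtain ⟨a1, a2, ⟨m, hm⟩, a4, a5⟩ := tt_spec (c := c) hR i j u
  obtain ⟨b1, b2, ⟨m', hm'⟩, b4, b5⟩ := tt_spec (c := c) hR i' j u'
  have key : tt R c i' j u' - tt R c i j u = i' - i + R * (m' - m) := by linarith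
  rcases lt_trichotomy (m' - m) 0 with h1 | h1 | h1
  · exfalso
    have h2 : R * (m' - m) ≤ -R := by nlinarith
    -- the next obstacle
    have h3 : InL R c (i + (R - tt R c i j u)) j := ⟨1 - m, by linarith⟩
    rcases lt_or_eq_of_le a2 with h4 | h4
    · rcases lt_trichotomy (i + (R - tt R c i j u)) i' with h5 | h5 | h5
      · exact h _ (by linarith) h5 h3
      · rw [h5] at h3
        have h6 := b5.2 ⟨h3, hu' h3⟩
        linarith
      · linarith
    · have h5 := a5.1 h4
      have h6 := hu h5.1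
      rw [h5.2] at h6
      exact absurd h6 (by decide)
  · rw [key, h1, mul_zero, add_zero]
  · exfalso
    have h2 : R ≤ R * (m' - m) := by nlinarith
    linarith

theorem tt_col (hR : 0 < R) (hc : R ∣ c * c - 1) (i j : ℤ) (u : Bool) :
    R ∣ tt R c i j u + c * ss R c i j u := by
  obtain ⟨-, -, ⟨m, hm⟩, -, -⟩ := tt_spec (c := c) hR i j u
  obtain ⟨-, -, ⟨m', hm'⟩, -, -⟩ := tt_spec (c := c) hR j i (!u)
  rw [ss_eq_tt hc]
  obtain ⟨n, hn⟩ := hc
  refine ⟨m + c * m' - n * i, ?_⟩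
  linear_combination hm + c * hm' - i * hn

/-- the three kinds of regions -/
theorem kinds (hR : 0 < R) (hc : R ∣ c * c - 1) (i j : ℤ) (u : Bool) :
    (InL R c i j ∧ u = true ∧ tt R c i j u = R ∧ ss R c i j u = 0) ∨
    (InL R c i j ∧ u = false ∧ tt R c i j u = 0 ∧ ss R c i j u = R) ∨
    (¬ InL R c i j ∧ 0 < tt R c i j u ∧ tt R c i j u < R ∧ 0 < ss R c i j u ∧
      ss R c i j u < R) := by
  obtain ⟨a1, a2, -, a4, a5⟩ := tt_spec (c := c) hR i j u
  obtain ⟨b1, b2, -, b4, b5⟩ := tt_spec (c := c) hR j i (!u)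
  rw [← ss_eq_tt hc] at b1 b2 b4 b5
  by_cases h : InL R c i j
  · cases u
    · right; left
      exact ⟨h, rfl, a4.2 ⟨h, rfl⟩, b5.2 ⟨h.swap hc, rfl⟩⟩
    · left
      exact ⟨h, rfl, a5.2 ⟨h, rfl⟩, b4.2 ⟨h.swap hc, rfl⟩⟩
  · right; right
    have h' : ¬ InL R c j i := fun h' => h (h'.swap hc)
    refine ⟨h, lt_of_le_of_ne a1 fun e => h (a4.1 e.symm).1, lt_of_le_of_ne a2 fun e =>
      h (a5.1 e).1, lt_of_le_of_ne b1 fun e => h' (b4.1 e.symm).1, lt_of_le_of_ne b2 fun e =>
      h' (b5.1 e).1⟩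

/-- the potential of a region -/
def pot (R c A B i j : ℤ) (u : Bool) : ℤ :=
  2 * (A * i - B * j) + B * ss R c i j u - A * tt R c i j u +
    if InL R c i j then (if u then (A - 2) * R else -((A - 2) * R)) else 0

/-- the potential of the pair of distances -/
theorem Par.bds (hp : Par R c A B t₀ s₀) {t s : ℤ} (h1 : 0 < t) (h2 : t < R) (h3 : 0 < s)
    (h4 : s < R) (h5 : R ∣ t + c * s) : 2 * R ≤ A * t + B * s ∧ A * t + B * s ≤ (A + B - 2) * R ∧
    (A * t + B * s = 2 * R → t = t₀ ∧ s = s₀) ∧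
    (A * t + B * s = (A + B - 2) * R → t = R - t₀ ∧ s = R - s₀) := by
  have h6 : R ∣ (R - t) + c * (R - s) := by
    obtain ⟨n, hn⟩ := h5
    exact ⟨1 + c - n, by linarith⟩
  have h7 := hp.mn (R - t) (R - s) (by linarith) (by linarith) h6 (Or.inl (by linarith))
  refine ⟨hp.mn t s h1.le h3.le h5 (Or.inl h1), by linarith, hp.eq t s h1.le h3.le h5,
    fun h8 => ?_⟩
  have h9 := hp.eq (R - t) (R - s) (by linarith) (by linarith) h6 (by linarith)
  omega

/-- the gain of a horizontal link -/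
theorem Par.gainH (hp : Par R c A B t₀ s₀) {i i' j : ℤ} {u u' : Bool}
    (hd : tt R c i' j u' - tt R c i j u = i' - i) :
    pot R c A B i' j u' - pot R c A B i j u ≤ (A + B - 4) * R ∧
    (pot R c A B i' j u' - pot R c A B i j u = (A + B - 4) * R →
      tt R c i j u = t₀ ∧ ss R c i j u = s₀ ∧ tt R c i' j u' = R - t₀ ∧
        ss R c i' j u' = R - s₀) := by
  have hR := hp.R0
  have hA := hp.A4
  have hB := hp.AB
  have p1 : 0 < A * R := mul_pos (by linarith) hR
  have p2 : 4 * R < A * R := mul_lt_mul_of_pos_right hA hR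
  have p3 : A * R < B * R := mul_lt_mul_of_pos_right hB hR
  have e1 : (A + B - 4) * R = A * R + B * R - 4 * R := by ring
  have e2 : (A - 2) * R = A * R - 2 * R := by ring
  have e3 : (A + B - 2) * R = A * R + B * R - 2 * R := by ring
  have gain : pot R c A B i' j u' - pot R c A B i j u =
      (A * tt R c i' j u' + B * ss R c i' j u') - (A * tt R c i j u + B * ss R c i j u) +
      (if InL R c i' j then (if u' then (A - 2) * R else -((A - 2) * R)) else 0) -
      (if InL R c i j then (if u then (A - 2) * R else -((A - 2) * R)) else 0) := by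
    unfold pot
    linear_combination (-2 * A) * hd
  have c1 := tt_col (c := c) hR hp.cc i j u
  have c2 := tt_col (c := c) hR hp.cc i' j u'
  rw [gain, e1]
  rcases kinds (c := c) hR hp.cc i j u with ⟨k1, k2, k3, k4⟩ | ⟨k1, k2, k3, k4⟩ |
    ⟨k1, k2, k3, k4, k5⟩ <;>
  rcases kinds (c := c) hR hp.cc i' j u' with ⟨l1, l2, l3, l4⟩ | ⟨l1, l2, l3, l4⟩ |
    ⟨l1, l2, l3, l4, l5⟩
  · rw [k3, k4, l3, l4, if_pos k1, if_pos l1, k2, l2]
    simp only [if_true]
    exact ⟨by linarith, fun h => by linarith⟩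
  · rw [k3, k4, l3, l4, if_pos k1, if_pos l1, k2, l2]
    simp only [if_true, Bool.false_eq_true, if_false, e2]
    exact ⟨by linarith, fun h => by linarith⟩
  · rw [k3, k4, if_pos k1, if_neg l1, k2]
    simp only [if_true, e2]
    obtain ⟨d1, d2, d3, d4⟩ := hp.bds l2 l3 l4 l5 c2
    rw [e3] at d2
    exact ⟨by linarith, fun h => by linarith⟩
  · rw [k3, k4, l3, l4, if_pos k1, if_pos l1, k2, l2]
    simp only [if_true, Bool.false_eq_true, if_false, e2]
    exact ⟨by linarith, fun h => by linarith⟩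
  · rw [k3, k4, l3, l4, if_pos k1, if_pos l1, k2, l2]
    simp only [Bool.false_eq_true, if_false, e2]
    exact ⟨by linarith, fun h => by linarith⟩
  · rw [k3, k4, if_pos k1, if_neg l1, k2]
    simp only [Bool.false_eq_true, if_false, e2]
    obtain ⟨d1, d2, d3, d4⟩ := hp.bds l2 l3 l4 l5 c2
    rw [e3] at d2
    exact ⟨by linarith, fun h => by linarith⟩
  · rw [l3, l4, if_neg k1, if_pos l1, l2]
    simp only [if_true, e2]
    obtain ⟨d1, d2, d3, d4⟩ := hp.bds k2 k3 k4 k5 c1
    exact ⟨by linarith, fun h => by linarith⟩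
  · rw [l3, l4, if_neg k1, if_pos l1, l2]
    simp only [Bool.false_eq_true, if_false, e2]
    obtain ⟨d1, d2, d3, d4⟩ := hp.bds k2 k3 k4 k5 c1
    exact ⟨by linarith, fun h => by linarith⟩
  · rw [if_neg k1, if_neg l1]
    obtain ⟨d1, d2, d3, d4⟩ := hp.bds k2 k3 k4 k5 c1
    obtain ⟨f1, f2, f3, f4⟩ := hp.bds l2 l3 l4 l5 c2
    rw [e3] at f2 f4
    refine ⟨by linarith, fun h => ?_⟩
    obtain ⟨g1, g2⟩ := d3 (by linarith)
    obtain ⟨g3, g4⟩ := f4 (by linarith)
    exact ⟨g1, g2, g3, g4⟩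

/-- the gain of a vertical link -/
theorem Par.gainV (hp : Par R c A B t₀ s₀) {i j j' : ℤ} {u u' : Bool}
    (hd : ss R c i j' u' - ss R c i j u = j' - j) :
    pot R c A B i j' u' - pot R c A B i j u ≤ (A + B - 4) * R ∧
    (pot R c A B i j' u' - pot R c A B i j u = (A + B - 4) * R →
      ((InL R c i j ∧ u = false) ∨ (tt R c i j u = R - t₀ ∧ ss R c i j u = R - s₀)) ∧
      ((InL R c i j' ∧ u' = true) ∨ (tt R c i j' u' = t₀ ∧ ss R c i j' u' = s₀))) := by
  have hR := hp.R0
  have hA := hp.A4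
  have hB := hp.AB
  have p1 : 0 < A * R := mul_pos (by linarith) hR
  have p2 : 4 * R < A * R := mul_lt_mul_of_pos_right hA hR
  have p3 : A * R < B * R := mul_lt_mul_of_pos_right hB hR
  have e1 : (A + B - 4) * R = A * R + B * R - 4 * R := by ring
  have e2 : (A - 2) * R = A * R - 2 * R := by ring
  have e3 : (A + B - 2) * R = A * R + B * R - 2 * R := by ring
  have gain : pot R c A B i j' u' - pot R c A B i j u =
      (A * tt R c i j u + B * ss R c i j u) - (A * tt R c i j' u' + B * ss R c i j' u') +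
      (if InL R c i j' then (if u' then (A - 2) * R else -((A - 2) * R)) else 0) -
      (if InL R c i j then (if u then (A - 2) * R else -((A - 2) * R)) else 0) := by
    unfold pot
    linear_combination (2 * B) * hd
  have c1 := tt_col (c := c) hR hp.cc i j u
  have c2 := tt_col (c := c) hR hp.cc i j' u'
  rw [gain, e1]
  rcases kinds (c := c) hR hp.cc i j u with ⟨k1, k2, k3, k4⟩ | ⟨k1, k2, k3, k4⟩ |
    ⟨k1, k2, k3, k4, k5⟩ <;>
  rcases kinds (c := c) hR hp.cc i j' u' with ⟨l1, l2, l3, l4⟩ | ⟨l1, l2, l3, l4⟩ |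
    ⟨l1, l2, l3, l4, l5⟩
  · rw [k3, k4, l3, l4, if_pos k1, if_pos l1, k2, l2]
    simp only [if_true]
    exact ⟨by linarith, fun h => by linarith⟩
  · rw [k3, k4, l3, l4, if_pos k1, if_pos l1, k2, l2]
    simp only [if_true, Bool.false_eq_true, if_false, e2]
    exact ⟨by linarith, fun h => by linarith⟩
  · rw [k3, k4, if_pos k1, if_neg l1, k2]
    simp only [if_true, e2]
    obtain ⟨d1, d2, d3, d4⟩ := hp.bds l2 l3 l4 l5 c2
    exact ⟨by linarith, fun h => by linarith⟩
  · rw [k3, k4, l3, l4, if_pos k1, if_pos l1, k2, l2]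
    simp only [if_true, Bool.false_eq_true, if_false, e2]
    exact ⟨by linarith, fun h => ⟨Or.inl ⟨k1, trivial⟩, Or.inl ⟨l1, trivial⟩⟩⟩
  · rw [k3, k4, l3, l4, if_pos k1, if_pos l1, k2, l2]
    simp only [Bool.false_eq_true, if_false, e2]
    exact ⟨by linarith, fun h => by linarith⟩
  · rw [k3, k4, if_pos k1, if_neg l1, k2]
    simp only [Bool.false_eq_true, if_false, e2]
    obtain ⟨d1, d2, d3, d4⟩ := hp.bds l2 l3 l4 l5 c2
    exact ⟨by linarith, fun h => ⟨Or.inl ⟨k1, trivial⟩, Or.inr (d3 (by linarith))⟩⟩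
  · rw [l3, l4, if_neg k1, if_pos l1, l2]
    simp only [if_true, e2]
    obtain ⟨d1, d2, d3, d4⟩ := hp.bds k2 k3 k4 k5 c1
    rw [e3] at d2 d4
    exact ⟨by linarith, fun h => ⟨Or.inr (d4 (by linarith)), Or.inl ⟨l1, trivial⟩⟩⟩
  · rw [l3, l4, if_neg k1, if_pos l1, l2]
    simp only [Bool.false_eq_true, if_false, e2]
    obtain ⟨d1, d2, d3, d4⟩ := hp.bds k2 k3 k4 k5 c1
    rw [e3] at d2
    exact ⟨by linarith, fun h => by linarith⟩
  · rw [if_neg k1, if_neg l1]
    obtain ⟨d1, d2, d3, d4⟩ := hp.bds k2 k3 k4 k5 c1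
    obtain ⟨f1, f2, f3, f4⟩ := hp.bds l2 l3 l4 l5 c2
    rw [e3] at d2 d4
    exact ⟨by linarith, fun h => ⟨Or.inr (d4 (by linarith)), Or.inr (f3 (by linarith))⟩⟩

/-- the values of the distances at a point which is not in the lattice -/
theorem tt_val (hR : 0 < R) {i j a n : ℤ} (u : Bool) (h0 : 0 < a) (h1 : a < R)
    (h : i - c * j = a + R * n) : ¬ InL R c i j ∧ tt R c i j u = a := by
  have h2 : (i - c * j) % R = a := by
    rw [h, Int.add_mul_emod_self_left]
    exact Int.emod_eq_of_lt h0.le h1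
  have h3 : ¬ InL R c i j := by
    intro h4
    have h5 : (i - c * j) % R = 0 := Int.emod_eq_zero_of_dvd h4
    omega
  refine ⟨h3, ?_⟩
  unfold tt
  rw [if_neg h3, h2]

theorem ss_val (hR : 0 < R) (hc : R ∣ c * c - 1) {i j b n : ℤ} (u : Bool) (h0 : 0 < b)
    (h1 : b < R) (h : j - c * i = b + R * n) : ss R c i j u = b := by
  rw [ss_eq_tt hc]
  exact (tt_val hR (!u) h0 h1 h).2

theorem pot_val (hR : 0 < R) (hc : R ∣ c * c - 1) {i j a b n m : ℤ} (u : Bool) (ha : 0 < a)
    (ha1 : a < R) (hb : 0 < b) (hb1 : b < R) (h : i - c * j = a + R * n)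
    (h' : j - c * i = b + R * m) :
    pot R c A B i j u = 2 * (A * i - B * j) + B * b - A * a := by
  obtain ⟨h1, h2⟩ := tt_val hR u ha ha1 h
  unfold pot
  rw [h2, ss_val hR hc u hb hb1 h', if_neg h1]
  ring

theorem pot_true (hR : 0 < R) (hc : R ∣ c * c - 1) {i j : ℤ} (h : InL R c i j) :
    pot R c A B i j true = 2 * (A * i - B * j) - 2 * R := by
  obtain ⟨-, -, -, -, h1⟩ := tt_spec (c := c) hR i j true
  obtain ⟨-, -, -, h2, -⟩ := tt_spec (c := c) hR j i false
  unfold pot
  rw [ss_eq_tt hc, Bool.not_true, h1.2 ⟨h, rfl⟩, h2.2 ⟨h.swap hc, rfl⟩, if_pos h]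
  simp only [if_true]
  ring

theorem pot_false (hR : 0 < R) (hc : R ∣ c * c - 1) {i j : ℤ} (h : InL R c i j) :
    pot R c A B i j false = 2 * (A * i - B * j) + (B - A + 2) * R := by
  obtain ⟨-, -, -, h1, -⟩ := tt_spec (c := c) hR i j false
  obtain ⟨-, -, -, -, h2⟩ := tt_spec (c := c) hR j i true
  unfold pot
  rw [ss_eq_tt hc, Bool.not_false, h1.2 ⟨h, rfl⟩, h2.2 ⟨h.swap hc, rfl⟩, if_pos h]
  simp only [Bool.false_eq_true, if_false]
  ring

/-- a link keeps the row or the column -/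
theorem Link.cases (hR : 0 < R) (hc : R ∣ c * c - 1) {i j i' j' : ℤ} {u u' : Bool}
    (h : Link R c i j u i' j' u') : (i' = i ∧ j' = j) ∨
    (j' = j ∧ tt R c i' j' u' - tt R c i j u = i' - i) ∨
    (i' = i ∧ ss R c i' j' u' - ss R c i j u = j' - j) := by
  have hn : ∀ {v w : Bool}, v = w → (!v) = !w := fun h => by rw [h]
  rcases h with h | ⟨rfl, h1, h2, h3, h4⟩ | ⟨rfl, h1, h2, h3, h4⟩ | ⟨rfl, h1, h2, h3, h4⟩ |
    ⟨rfl, h1, h2, h3, h4⟩
  · exact Or.inl h
  · exact Or.inr (Or.inl ⟨rfl, tt_step hR h1 h2 h3 h4⟩)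
  · exact Or.inr (Or.inl ⟨rfl, by have := tt_step hR h1 h2 h3 h4; linarith⟩)
  · refine Or.inr (Or.inr ⟨rfl, ?_⟩)
    rw [ss_eq_tt hc, ss_eq_tt hc]
    exact tt_step hR h1 (fun y e1 e2 e3 => h2 y e1 e2 (e3.swap hc))
      (fun e => by rw [h3 (e.swap hc)]; rfl) (fun e => by rw [h4 (e.swap hc)]; rfl)
  · refine Or.inr (Or.inr ⟨rfl, ?_⟩)
    rw [ss_eq_tt hc, ss_eq_tt hc]
    have := tt_step (c := c) (u := !u') (u' := !u) hR h1
      (fun y e1 e2 e3 => h2 y e1 e2 (e3.swap hc))
      (fun e => by rw [h3 (e.swap hc)]; rfl) (fun e => by rw [h4 (e.swap hc)]; rfl)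
    linarith

/-- the gain of a link -/
theorem Par.gain (hp : Par R c A B t₀ s₀) {i j i' j' : ℤ} {u u' : Bool}
    (h : Link R c i j u i' j' u') :
    pot R c A B i' j' u' - pot R c A B i j u ≤ (A + B - 4) * R ∧
    (pot R c A B i' j' u' - pot R c A B i j u = (A + B - 4) * R →
      (j' = j ∧ tt R c i' j' u' - tt R c i j u = i' - i ∧ tt R c i j u = t₀ ∧
        ss R c i j u = s₀ ∧ tt R c i' j' u' = R - t₀ ∧ ss R c i' j' u' = R - s₀) ∨
      (i' = i ∧ ss R c i' j' u' - ss R c i j u = j' - j ∧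
        ((InL R c i j ∧ u = false) ∨ (tt R c i j u = R - t₀ ∧ ss R c i j u = R - s₀)) ∧
        ((InL R c i' j' ∧ u' = true) ∨ (tt R c i' j' u' = t₀ ∧ ss R c i' j' u' = s₀)))) := by
  have hR := hp.R0
  have hA := hp.A4
  have hB := hp.AB
  rcases h.cases hR hp.cc with ⟨rfl, rfl⟩ | ⟨rfl, h1⟩ | ⟨rfl, h1⟩
  · have h2 : pot R c A B i' j' u' - pot R c A B i' j' u < (A + B - 4) * R := by
      have e0 : 0 < (A + B - 4) * R := mul_pos (by linarith) hR
      by_cases hL : InL R c i' j'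
      · cases u <;> cases u'
        · linarith
        · rw [pot_true hR hp.cc hL, pot_false hR hp.cc hL]
          have e1 : 0 < (B - A + 2) * R := mul_pos (by linarith) hR
          linarith
        · rw [pot_true hR hp.cc hL, pot_false hR hp.cc hL]
          have e1 : 0 < (A - 4) * R := mul_pos (by linarith) hR
          linarith
        · linarith
      · have : pot R c A B i' j' u' = pot R c A B i' j' u := by
          unfold pot tt ss
          rw [if_neg hL, if_neg hL, if_neg hL, if_neg hL, if_neg hL, if_neg hL]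
        linarith
    exact ⟨h2.le, fun h3 => absurd h3 h2.ne⟩
  · obtain ⟨h2, h3⟩ := hp.gainH h1
    exact ⟨h2, fun h4 => Or.inl ⟨rfl, h1, h3 h4⟩⟩
  · obtain ⟨h2, h3⟩ := hp.gainV h1
    exact ⟨h2, fun h4 => Or.inr ⟨rfl, h1, h3 h4⟩⟩

/-- the potential of the cells at the start -/
theorem Par.start (hp : Par R c A B t₀ s₀) {x y i j : ℤ} {u : Bool} (h : InL R c x y)
    (hi : i = x ∨ i = x + 1) (hj : j = y ∨ j = y + 1) :
    pot R c A B i j u ≤ 2 * (A * x - B * y) + (B - A + 2) * R ∧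
    (pot R c A B i j u = 2 * (A * x - B * y) + (B - A + 2) * R → i = x ∧ j = y ∧ u = false) := by
  have hR := hp.R0
  have hA := hp.A4
  have hB := hp.AB
  have hc := hp.c1
  have hcR := hp.cR
  have h6 := hp.h6
  obtain ⟨m, hm⟩ := h.swap hp.cc
  obtain ⟨n, hn⟩ := id h
  have f1 : 0 < (B - A) * R := mul_pos (by linarith) hR
  have f2 : 0 < (B - A) * (c + 1) := mul_pos (by linarith) (by linarith)
  have f3 : 0 < A * (R - c) := mul_pos (by linarith) (by linarith)
  have key : (i ≠ x ∨ j ≠ y ∨ u ≠ false) →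
      pot R c A B i j u < 2 * (A * x - B * y) + (B - A + 2) * R := by
    intro hne
    rcases hi with rfl | rfl <;> rcases hj with rfl | rfl
    · cases u with
      | false => simp at hne
      | true =>
        rw [pot_true hR hp.cc h]
        linarith
    · rw [pot_val (a := R - c) (b := 1) (n := n - 1) (m := m) hR hp.cc u (by linarith)
        (by linarith) (by linarith) (by linarith) (by linarith) (by linarith)]
      linarith
    · rw [pot_val (a := 1) (b := R - c) (n := n) (m := m - 1) hR hp.cc u (by linarith)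
        (by linarith) (by linarith) (by linarith) (by linarith) (by linarith)]
      linarith
    · rw [pot_val (a := R + 1 - c) (b := R + 1 - c) (n := n - 1) (m := m - 1) hR hp.cc u
        (by linarith) (by linarith) (by linarith) (by linarith) (by linarith) (by linarith)]
      linarith
  by_cases hne : i ≠ x ∨ j ≠ y ∨ u ≠ false
  · exact ⟨(key hne).le, fun h' => absurd h' (key hne).ne⟩
  · push Not at hne
    obtain ⟨rfl, rfl, rfl⟩ := hne
    exact ⟨by rw [pot_false hR hp.cc h], fun _ => ⟨rfl, rfl, rfl⟩⟩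

/-- the potential of the cells at the end -/
theorem Par.stop (hp : Par R c A B t₀ s₀) {x y i j : ℤ} {u : Bool} (h : InL R c x y)
    (hi : i = x ∨ i = x - 1) (hj : j = y ∨ j = y - 1) :
    2 * (A * x - B * y) - 2 * R ≤ pot R c A B i j u ∧
    (pot R c A B i j u = 2 * (A * x - B * y) - 2 * R → i = x ∧ j = y ∧ u = true) := by
  have hR := hp.R0
  have hA := hp.A4
  have hB := hp.AB
  have hc := hp.c1
  have hcR := hp.cR
  have h6 := hp.h6
  obtain ⟨m, hm⟩ := h.swap hp.cc
  obtain ⟨n, hn⟩ := id h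
  have f1 : 0 < (B - A) * R := mul_pos (by linarith) hR
  have f2 : 0 < (B - A) * (c + 1) := mul_pos (by linarith) (by linarith)
  have f3 : 0 < A * (R - c) := mul_pos (by linarith) (by linarith)
  have key : (i ≠ x ∨ j ≠ y ∨ u ≠ true) →
      2 * (A * x - B * y) - 2 * R < pot R c A B i j u := by
    intro hne
    rcases hi with rfl | rfl <;> rcases hj with rfl | rfl
    · cases u with
      | true => simp at hne
      | false =>
        rw [pot_false hR hp.cc h]
        linarith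
    · rw [pot_val (a := c) (b := R - 1) (n := n) (m := m - 1) hR hp.cc u (by linarith)
        (by linarith) (by linarith) (by linarith) (by linarith) (by linarith)]
      linarith
    · rw [pot_val (a := R - 1) (b := c) (n := n - 1) (m := m) hR hp.cc u (by linarith)
        (by linarith) (by linarith) (by linarith) (by linarith) (by linarith)]
      linarith
    · rw [pot_val (a := c - 1) (b := c - 1) (n := n) (m := m) hR hp.cc u
        (by linarith) (by linarith) (by linarith) (by linarith) (by linarith) (by linarith)]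
      linarith
  by_cases hne : i ≠ x ∨ j ≠ y ∨ u ≠ true
  · exact ⟨(key hne).le, fun h' => absurd h' (key hne).ne'⟩
  · push Not at hne
    obtain ⟨rfl, rfl, rfl⟩ := hne
    exact ⟨by rw [pot_true hR hp.cc h], fun _ => ⟨rfl, rfl, rfl⟩⟩

/-- **A shortest link walk is unique.** -/
theorem walk_unique (hp : Par R c A B t₀ s₀) {x y : ℤ} (hx : InL R c x y) (m : ℕ)
    (i j : ℕ → ℤ) (u : ℕ → Bool)
    (h : ∀ n < 2 * m + 1, Link R c (i n) (j n) (u n) (i (n + 1)) (j (n + 1)) (u (n + 1)))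
    (hi : i 0 = x ∨ i 0 = x + 1) (hj : j 0 = y + R ∨ j 0 = y + R + 1)
    (hi' : i (2 * m + 1) = x + m * (R - 2 * t₀) ∨ i (2 * m + 1) = x + m * (R - 2 * t₀) - 1)
    (hj' : j (2 * m + 1) = y - m * (R - 2 * s₀) ∨ j (2 * m + 1) = y - m * (R - 2 * s₀) - 1) :
    (i 0 = x ∧ j 0 = y + R ∧ u 0 = false) ∧
    (i (2 * m + 1) = x + m * (R - 2 * t₀) ∧ j (2 * m + 1) = y - m * (R - 2 * s₀) ∧
      u (2 * m + 1) = true) ∧
    ∀ a : ℕ, a < m →
      (i (2 * a + 1) = x + a * (R - 2 * t₀) ∧ j (2 * a + 1) = y - a * (R - 2 * s₀) + s₀) ∧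
      (i (2 * a + 2) = x + (a + 1) * (R - 2 * t₀) ∧
        j (2 * a + 2) = y - a * (R - 2 * s₀) + s₀) := by
  have hR := hp.R0
  have hA := hp.A4
  have hB := hp.AB
  have v2 := hp.v2
  set P : ℕ → ℤ := fun n => pot R c A B (i n) (j n) (u n) with hP
  set G : ℤ := (A + B - 4) * R with hG
  have hstep : ∀ n < 2 * m + 1, P (n + 1) ≤ P n + G := fun n hn => by
    have := (hp.gain (h n hn)).1
    simp only [hP]
    linarith
  have hup : ∀ n ≤ 2 * m + 1, P n ≤ P 0 + n * G := by
    intro n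
    induction n with
    | zero => intro _; simp
    | succ n ih =>
      intro hn
      have h1 := ih (by omega)
      have h2 := hstep n (by omega)
      push_cast
      linarith
  have hdn : ∀ d n : ℕ, n + d = 2 * m + 1 → P (2 * m + 1) ≤ P n + d * G := by
    intro d
    induction d with
    | zero => intro n hn; rw [← hn]; simp
    | succ d ih =>
      intro n hn
      have h1 := ih (n + 1) (by omega)
      have h2 := hstep n (by omega)
      push_cast
      linarith
  have hxo : InL R c x (y + R) := by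
    obtain ⟨n, hn⟩ := hx
    exact ⟨n - c, by linarith⟩
  have hxe : InL R c (x + m * (R - 2 * t₀)) (y - m * (R - 2 * s₀)) := by
    obtain ⟨n, hn⟩ := hx
    obtain ⟨n', hn'⟩ := hp.tl
    refine ⟨n + m * (1 + c) - 2 * m * n', ?_⟩
    linear_combination hn - 2 * (m : ℤ) * hn'
  obtain ⟨s1, s2⟩ := hp.start (u := u 0) hxo hi hj
  obtain ⟨e1, e2⟩ := hp.stop (u := u (2 * m + 1)) hxe hi' hj'
  have hval : 2 * (A * (x + m * (R - 2 * t₀)) - B * (y - m * (R - 2 * s₀))) - 2 * R =
      2 * (A * x - B * (y + R)) + (B - A + 2) * R + (2 * m + 1) * G := by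
    rw [hG]
    linear_combination (-4 * (m : ℤ)) * v2
  have htot := hup (2 * m + 1) le_rfl
  simp only [hP] at htot
  push_cast at htot
  obtain ⟨a1, a2, a3⟩ := s2 (by linarith)
  obtain ⟨b1, b2, b3⟩ := e2 (by linarith)
  have hPn : ∀ n ≤ 2 * m + 1, P n = P 0 + n * G := by
    intro n hn
    have h1 := hup n hn
    have h2 := hdn (2 * m + 1 - n) n (by omega)
    have h3 : ((2 * m + 1 - n : ℕ) : ℤ) = 2 * m + 1 - n := by omega
    rw [h3] at h2
    have h4 : P (2 * m + 1) = P 0 + (2 * m + 1) * G := by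
      simp only [hP]
      linarith
    have h5 : (2 * (m : ℤ) + 1 - n) * G = (2 * m + 1) * G - n * G := by ring
    linarith
  have heq : ∀ n < 2 * m + 1, pot R c A B (i (n + 1)) (j (n + 1)) (u (n + 1)) -
      pot R c A B (i n) (j n) (u n) = (A + B - 4) * R := by
    intro n hn
    have h1 := hPn n (by omega)
    have h2 := hPn (n + 1) (by omega)
    simp only [hP] at h1 h2
    push_cast at h2
    linarith
  -- the distances at the middle points are different
  have hne : ¬ (R - t₀ = t₀ ∧ R - s₀ = s₀) := by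
    rintro ⟨h1, h2⟩
    have h3 : A * (R - t₀) + B * (R - s₀) = 2 * R := by rw [h1, h2]; exact v2
    have h4 : 0 < (A + B - 4) * R := mul_pos (by linarith) hR
    linarith
  have t0 := hp.t0
  have tR := hp.tR
  have s0 := hp.s0
  have sR := hp.sR
  -- a vertical step
  have stepV : ∀ n < 2 * m + 1, ((InL R c (i n) (j n) ∧ u n = false) ∨
      (tt R c (i n) (j n) (u n) = R - t₀ ∧ ss R c (i n) (j n) (u n) = R - s₀)) →
      i (n + 1) = i n ∧ ss R c (i (n + 1)) (j (n + 1)) (u (n + 1)) -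
        ss R c (i n) (j n) (u n) = j (n + 1) - j n ∧
      ((InL R c (i (n + 1)) (j (n + 1)) ∧ u (n + 1) = true) ∨
      (tt R c (i (n + 1)) (j (n + 1)) (u (n + 1)) = t₀ ∧
        ss R c (i (n + 1)) (j (n + 1)) (u (n + 1)) = s₀)) := by
    intro n hn hk
    rcases (hp.gain (h n hn)).2 (heq n hn) with ⟨g1, g2, g3, g4, g5, g6⟩ | ⟨g1, g2, g3, g4⟩
    · exfalso
      rcases hk with ⟨k1, k2⟩ | ⟨k1, k2⟩
      · rcases kinds (c := c) hR hp.cc (i n) (j n) (u n) with ⟨l1, l2, l3, l4⟩ |
          ⟨l1, l2, l3, l4⟩ | ⟨l1, -⟩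
        · rw [k2] at l2; exact absurd l2 (by decide)
        · linarith
        · exact l1 k1
      · exact hne ⟨by linarith, by linarith⟩
    · exact ⟨g1, g2, g4⟩
  -- a horizontal step
  have stepH : ∀ n < 2 * m + 1, tt R c (i n) (j n) (u n) = t₀ → ss R c (i n) (j n) (u n) = s₀ →
      j (n + 1) = j n ∧ i (n + 1) = i n + (R - 2 * t₀) ∧
      tt R c (i (n + 1)) (j (n + 1)) (u (n + 1)) = R - t₀ ∧
        ss R c (i (n + 1)) (j (n + 1)) (u (n + 1)) = R - s₀ := by
    intro n hn k1 k2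
    rcases (hp.gain (h n hn)).2 (heq n hn) with ⟨g1, g2, g3, g4, g5, g6⟩ | ⟨g1, g2, g3, g4⟩
    · exact ⟨g1, by linarith, g5, g6⟩
    · exfalso
      rcases g3 with ⟨k3, k4⟩ | ⟨k3, k4⟩
      · rcases kinds (c := c) hR hp.cc (i n) (j n) (u n) with ⟨l1, l2, l3, l4⟩ |
          ⟨l1, l2, l3, l4⟩ | ⟨l1, -⟩
        · rw [k4] at l2; exact absurd l2 (by decide)
        · linarith
        · exact l1 k3
      · exact hne ⟨by linarith, by linarith⟩
  -- the point `(R, 0)` is a dead end
  have dead : ∀ n < 2 * m + 1, InL R c (i n) (j n) → u n = true → False := by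
    intro n hn k1 k2
    rcases kinds (c := c) hR hp.cc (i n) (j n) (u n) with ⟨l1, l2, l3, l4⟩ |
      ⟨l1, l2, l3, l4⟩ | ⟨l1, -⟩
    · rcases (hp.gain (h n hn)).2 (heq n hn) with ⟨g1, g2, g3, g4, g5, g6⟩ |
        ⟨g1, g2, g3, g4⟩
      · linarith
      · rcases g3 with ⟨k3, k4⟩ | ⟨k3, k4⟩
        · rw [k2] at k4; exact absurd k4 (by decide)
        · linarith
    · rw [k2] at l2; exact absurd l2 (by decide)
    · exact l1 k1
  have main : ∀ a : ℕ, a < m →
      (i (2 * a + 1) = x + a * (R - 2 * t₀) ∧ j (2 * a + 1) = y - a * (R - 2 * s₀) + s₀) ∧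
      (i (2 * a + 2) = x + (a + 1) * (R - 2 * t₀) ∧
        j (2 * a + 2) = y - a * (R - 2 * s₀) + s₀) ∧
      tt R c (i (2 * a + 2)) (j (2 * a + 2)) (u (2 * a + 2)) = R - t₀ ∧
        ss R c (i (2 * a + 2)) (j (2 * a + 2)) (u (2 * a + 2)) = R - s₀ := by
    intro a
    induction a with
    | zero =>
      intro ha
      obtain ⟨c1, c2, c3⟩ := stepV 0 (by omega) (Or.inl ⟨by rw [a1, a2]; exact hxo, a3⟩)
      rcases c3 with ⟨c3, c4⟩ | ⟨c3, c4⟩
      · exact (dead _ (by omega) c3 c4).elim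
      obtain ⟨d1, d2, d3, d4⟩ := stepH 1 (by omega) c3 c4
      have hs : ss R c (i 0) (j 0) (u 0) = R := by
        rcases kinds (c := c) hR hp.cc (i 0) (j 0) (u 0) with ⟨l1, l2, l3, l4⟩ |
          ⟨l1, l2, l3, l4⟩ | ⟨l1, -⟩
        · rw [a3] at l2; exact absurd l2 (by decide)
        · exact l4
        · exact absurd (by rw [a1, a2]; exact hxo) l1
      simp only [zero_add] at c1 c2 c4
      have e3 : j 1 = y + s₀ := by linarith
      refine ⟨⟨by simp; rw [c1, a1], by simp; exact e3⟩, ⟨?_, ?_⟩, ?_, ?_⟩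
      · simp
        rw [d2, c1, a1]
      · simp
        rw [d1, e3]
      · exact d3
      · exact d4
    | succ a ih =>
      intro ha
      obtain ⟨-, ⟨f1, f2⟩, f3, f4⟩ := ih (by omega)
      obtain ⟨c1, c2, c3⟩ := stepV (2 * a + 2) (by omega) (Or.inr ⟨f3, f4⟩)
      rcases c3 with ⟨c3, c4⟩ | ⟨c3, c4⟩
      · exact (dead _ (by omega) c3 c4).elim
      obtain ⟨d1, d2, d3, d4⟩ := stepH (2 * a + 2 + 1) (by omega) c3 c4
      rw [show 2 * (a + 1) + 1 = 2 * a + 2 + 1 by ring,
        show 2 * (a + 1) + 2 = 2 * a + 2 + 1 + 1 by ring]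
      have e3 : j (2 * a + 2 + 1) = y - (a + 1) * (R - 2 * s₀) + s₀ := by linarith
      push_cast
      refine ⟨⟨by rw [c1, f1], e3⟩, ⟨?_, ?_⟩, d3, d4⟩
      · rw [d2, c1, f1]
        ring
      · rw [d1, e3]
  exact ⟨⟨a1, a2, a3⟩, ⟨b1, b2, b3⟩, fun a ha => ⟨(main a ha).1, (main a ha).2.1⟩⟩

end Pool.Agent.Helper96.DG3
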