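import Pool.Agent.Helper96.DG3.Walk
import Pool.Agent.Helper68.RAC1.Par

/-!
# The parameters of the classes of threads
-/

set_option autoImplicit false

namespace Pool.Agent.Helper96.DG3

open Pool.Agent.Helper68.RAC1

theorem par {D k : ℕ} (h1 : D < 2 * k) (h2 : k + 2 ≤ D) :
    Par (Nat.fib (2 * D + 2)) (Nat.fib (2 * D)) (lo (D - k)) (lo k) (Nat.fib (2 * k + 1))
      (Nat.fib (2 * (D - k) + 1)) where
  R0 := by
    have := par_c_pos h1 h2
    have := par_c_lt D
    linarith
  c1 := by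
    have h3 : Nat.fib 3 ≤ Nat.fib (2 * D) := Nat.fib_mono (by omega)
    have h4 : Nat.fib 3 = 2 := rfl
    rw [h4] at h3
    have : (2 : ℤ) ≤ (Nat.fib (2 * D) : ℤ) := by exact_mod_cast h3
    linarith
  cR := par_c_lt D
  cc := par_dvd_sq D
  A4 := par_A h1 h2
  AB := par_AB h1 h2
  h6 := par_ABc h1 h2
  mn := fun t s ht hs hd h0 => (par_min h1 h2 ht hs (by omega) hd).1
  eq := fun t s ht hs hd he => by
    have hR : (0 : ℤ) < Nat.fib (2 * D + 2) := by
      have := par_c_pos h1 h2
      have := par_c_lt D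
      linarith
    refine (par_min h1 h2 ht hs ?_ hd).2 he
    rintro ⟨rfl, rfl⟩
    simp only [mul_zero, add_zero] at he
    linarith
  t0 := par_t_pos k
  tR := par_t_lt h1 h2
  s0 := par_t_pos (D - k)
  sR := par_s_lt h1 h2
  tl := par_dvd (by omega)
  v2 := par_eq (by omega)

end Pool.Agent.Helper96.DG3
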