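import Pool.Agent.Helper65.DG3.Disj3
import Pool.Agent.Helper74.DG3.Win2
import Pool.Agent.Helper18.DG3.StartEnd
import Pool.Agent.Helper82.DG.GoodD
import Pool.Agent.Helper49.DG.Rects

/-!
# Threads: good kites
-/

set_option autoImplicit false

namespace Pool.Agent.Helper58.DG3

open Pool.Agent.Helper18.RAC Complex
open Pool.Agent.Helper82.DG (NE SE NW SW Fr CoreH conj_segment)

variable {V : Type*}

/-! ### the conjugate drawing -/

/-- complex conjugation as a homeomorphism -/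
noncomputable def cjH96 : ℂ ≃ₜ ℂ := Complex.conjLIE.toHomeomorph

theorem cjH96_apply (z : ℂ) : cjH96 z = (starRingEnd ℂ) z := rfl

theorem KCell.conj96 {H : SimpleGraph V} {f : V → ℂ} {κ : GX → V} {A : Set ℂ} {x y : V}
    (h : KCell H (fun v => (starRingEnd ℂ) (f v)) κ A x y) : KCell H f κ (cjH96 ⁻¹' A) x y where
  op := h.op.preimage cjH96.continuous
  pc := (cjH96.isPreconnected_preimage).2 h.pc
  hx := by rw [← cjH96.preimage_frontier]; exact h.hx
  hy := by rw [← cjH96.preimage_frontier]; exact h.hy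
  fr := by
    intro z hz
    rw [← cjH96.preimage_frontier] at hz
    obtain ⟨p, p', c, c', hp, h1⟩ := h.fr _ hz
    refine ⟨p, p', c, c', hp, ?_⟩
    have h2 := conj_segment h1
    simp only [cjH96_apply, Complex.conj_conj] at h2
    exact h2
  fv := by
    intro v hv
    rw [← cjH96.preimage_frontier] at hv
    exact h.fv v hv
  thr := fun p p' z hp hz hzA => h.thr p p' (cjH96 z) hp (conj_segment hz) hzA

theorem GoodK.conj96 {H : SimpleGraph V} {f : V → ℂ} {a b : V} {κ : GX → V} {π : Par}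
    {A₀ A₁ A₂ : Set ℂ} (h : GoodK H (fun v => (starRingEnd ℂ) (f v)) a b κ π A₀ A₁ A₂) :
    ∃ B₀ B₁ B₂, GoodK H f a b κ π B₀ B₁ B₂ :=
  ⟨cjH96 ⁻¹' A₀, cjH96 ⁻¹' A₁, cjH96 ⁻¹' A₂, h.c0.conj96, h.c1.conj96, h.c2.conj96, h.core, h.mem,
    h.nbr, h.dd, h.cnt⟩

/-! ### the names of the ends of the codes -/

/-- the net vertices on a line -/
theorem GN.Fp_ok96 {π : Par} {σ : Bool} {x y : ℕ} (hx : 1 ≤ x) (hy : 1 ≤ y) (h : x + y + 3 ≤ π.M)
    (hS : InS π.D (pt σ x y)) : (GN.F' σ x y).ok π := by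
  cases σ
  · exact (⟨hy, hx, by omega, hS⟩ : 1 ≤ y ∧ 1 ≤ x ∧ y + x + 3 ≤ π.M ∧ InS π.D (y, x))
  · exact (⟨hx, hy, by omega, hS⟩ : 1 ≤ x ∧ 1 ≤ y ∧ x + y + 3 ≤ π.M ∧ InS π.D (x, y))

theorem GN.Dp_ok96 {π : Par} (σ : Bool) {c : ℕ} (h : c < π.M) : (GN.D' σ c 0).ok π := by
  cases σ
  · exact (⟨h, by omega, Or.inr rfl⟩ : c < π.M ∧ 0 < π.M ∧ (c = 0 ∨ 0 = 0))
  · exact (⟨by omega, h, Or.inl rfl⟩ : 0 < π.M ∧ c < π.M ∧ (0 = 0 ∨ c = 0))

/-- corners and used names -/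
def GX.ok96 (π : Par) : GX → Prop
  | .v x => x.ok π
  | _ => True

theorem end_ok96 {π : Par} {k x y : ℕ} (hs : π.St k x y) :
    GN.ok π (.F (π.pp k x y π.l).1.toNat (π.pp k x y π.l).2.toNat) := by
  have hR : (0 : ℤ) < π.R := by exact_mod_cast Pool.Agent.Helper18.DG3.R_pos π
  obtain ⟨b1, b2, b3, -, -⟩ := Pool.Agent.Helper18.DG3.pp_bounds hs le_rfl
  have e1 : (((π.pp k x y π.l).1.toNat : ℕ) : ℤ) = (π.pp k x y π.l).1 :=
    Int.toNat_of_nonneg (by linarith)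
  have e2 : (((π.pp k x y π.l).2.toNat : ℕ) : ℤ) = (π.pp k x y π.l).2 :=
    Int.toNat_of_nonneg (by linarith)
  refine ⟨by omega, by omega, by omega, ?_⟩
  left
  rw [e1, e2]
  exact Pool.Agent.Helper18.DG3.inL_pp hs

/-- the names of the ends of a valid code are used -/
theorem GE.ends_ok96 {π : Par} (hM : 8 ≤ π.M) {c : GE} (hc : c.valid π) :
    (c.ends π).1.ok96 π ∧ (c.ends π).2.ok96 π := by
  cases c with
  | yp σ j => exact ⟨trivial, hc⟩
  | xu σ c => exact ⟨trivial, hc.1⟩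
  | xp σ => exact ⟨trivial, show 2 * π.M - 1 < 2 * π.M by omega⟩
  | up σ c =>
    have hc' : c < π.M := hc
    exact ⟨hc, show 2 * c < 2 * π.M by omega⟩
  | pd σ c =>
    have hc' : c < π.M := hc
    exact ⟨show 2 * c + 1 < 2 * π.M by omega, GN.Dp_ok96 σ hc'⟩
  | dd σ c =>
    have hc' : c + 1 < π.M := hc
    exact ⟨GN.Dp_ok96 σ (by omega), GN.Dp_ok96 σ hc'⟩
  | pp σ j =>
    have hc' : j + 1 < 2 * π.M := hc
    exact ⟨show j < 2 * π.M by omega, hc'⟩
  | pc σ j ε =>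
    have hc' : j + 1 < 2 * π.M := hc
    exact ⟨show j < 2 * π.M by omega, hc'⟩
  | pc' σ j ε => exact ⟨hc, hc⟩
  | cc σ j => exact ⟨hc, hc⟩
  | uu => exact ⟨show π.M - 1 < π.M by omega, show π.M - 1 < π.M by omega⟩
  | uq σ ε => exact ⟨show π.M - 1 < π.M by omega, trivial⟩
  | qq => exact ⟨trivial, trivial⟩
  | dr σ ε =>
    refine ⟨GN.Dp_ok96 σ (by omega), ?_⟩
    cases ε
    · exact (by omega : 0 < π.M)
    · exact (by omega : 1 < π.M)
  | uw σ c =>
    have hc' : 3 ≤ c ∧ c + 2 ≤ π.M := hc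
    refine ⟨?_, show c < π.M by omega⟩
    simp only [GE.ends]
    by_cases h3 : c = 3
    · rw [if_pos h3]
      cases σ
      · exact (⟨by omega, by omega, Or.inl rfl⟩ : 0 < π.M ∧ 1 < π.M ∧ (0 = 0 ∨ 1 = 0))
      · exact (⟨by omega, by omega, Or.inr rfl⟩ : 1 < π.M ∧ 0 < π.M ∧ (1 = 0 ∨ 0 = 0))
    · rw [if_neg h3]
      exact (by omega : c - 1 < π.M)
  | nl σ x x' y =>
    obtain ⟨h1, h2, h3, h4, h5, -⟩ := hc
    refine ⟨?_, GN.Fp_ok96 (by omega) h1 h3 h4⟩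
    change (GN.lo σ x y).ok π
    unfold GN.lo
    by_cases h0 : x = 0
    · rw [if_pos h0]
      exact GN.Dp_ok96 σ (by omega)
    · rw [if_neg h0]
      exact GN.Fp_ok96 (by omega) h1 (by omega) (h5.resolve_left h0)
  | dg x y =>
    obtain ⟨h1, h2, h3, h4⟩ := hc
    refine ⟨(⟨h1, h2, by omega, Or.inl h4⟩ : GN.ok π (.F x y)),
      (⟨by omega, by omega, by omega, Or.inr (Or.inl ?_)⟩ : GN.ok π (.F (x + 1) (y + 1)))⟩
    have : ((((x + 1 : ℕ) : ℤ)) - 1, (((y + 1 : ℕ) : ℤ)) - 1) = ((x : ℤ), (y : ℤ)) := by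
      push_cast
      simp
    rw [this]
    exact h4
  | ts k x y => exact ⟨Pool.Agent.Helper18.DG3.start_ok hc, (⟨hc, Nat.zero_le _⟩ :
      GN.ok π (.T k x y 0))⟩
  | tt k x y t =>
    obtain ⟨h1, h2⟩ := hc
    exact ⟨(⟨h1, by omega⟩ : GN.ok π (.T k x y t)), (⟨h1, by omega⟩ : GN.ok π (.T k x y (t + 1)))⟩
  | te k x y => exact ⟨(⟨hc, le_rfl⟩ : GN.ok π (.T k x y (2 * π.l + 1))), end_ok96 hc⟩

/-- the second end of a code is the name of a vertex, different from the first end -/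
theorem GE.ends_ne96 {π : Par} (hM : 8 ≤ π.M) {c : GE} (hc : c.valid π) :
    (c.ends π).1 ≠ (c.ends π).2 ∧ ∃ x, (c.ends π).2 = .v x := by
  cases c with
  | pd σ c => cases σ <;> exact ⟨by simp [GE.ends, GN.D'], _, rfl⟩
  | dd σ c => cases σ <;> exact ⟨by simp [GE.ends, GN.D'], _, rfl⟩
  | dr σ ε => cases σ <;> cases ε <;> exact ⟨by simp [GE.ends, GN.D'], _, rfl⟩
  | uw σ c =>
    have hc' : 3 ≤ c ∧ c + 2 ≤ π.M := hc
    refine ⟨?_, _, rfl⟩
    simp only [GE.ends]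
    by_cases h3 : c = 3
    · rw [if_pos h3]
      cases σ <;> simp [GN.D']
    · rw [if_neg h3]
      simp only [ne_eq, GX.v.injEq, GN.U.injEq, true_and]
      omega
  | nl σ x x' y =>
    obtain ⟨h1, h2, h3, h4, h5, -⟩ := hc
    refine ⟨?_, _, rfl⟩
    simp only [GE.ends, GN.lo]
    by_cases h0 : x = 0
    · rw [if_pos h0]
      cases σ <;> simp [GN.D', GN.F']
    · rw [if_neg h0]
      cases σ
      · simp only [GN.F', cond_false, ne_eq, GX.v.injEq, GN.F.injEq, true_and]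
        omega
      · simp only [GN.F', cond_true, ne_eq, GX.v.injEq, GN.F.injEq, and_true]
        omega
  | _ => exact ⟨by simp [GE.ends], _, rfl⟩

section

variable {a b : V} {p : ℕ → V} {κ : ℕ → GX → V} {m K : ℕ} {π : Par}

theorem LayD.nX (hl : LayD a b p κ m K π) {i : ℕ} (hi : i < K) {x : GN} (hx : x.ok π)
    (σ : Bool) : κ i (.v x) ≠ κ i (.X σ) := by
  have hm := hl.hm
  obtain ⟨h1, h2, h3⟩ := hl.nc i hi x hx
  cases σ
  · rw [hl.kN i hi]
    split_ifs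
    · exact h2
    · exact h1
  · rw [hl.kE i hi]
    exact h3 _ (by omega)

theorem LayD.nY (hl : LayD a b p κ m K π) {i : ℕ} (hi : i < K) {x : GN} (hx : x.ok π)
    (σ : Bool) : κ i (.v x) ≠ κ i (.Y σ) := by
  have hm := hl.hm
  obtain ⟨h1, h2, h3⟩ := hl.nc i hi x hx
  cases σ
  · rw [hl.kS i hi]
    exact h3 _ (by omega)
  · rw [hl.kW i hi]
    exact h3 _ (by omega)

theorem LayD.grid_ne (hl : LayD a b p κ m K π) {i : ℕ} (hi : i < K) {c : GE} (hc : c.valid π) :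
    κ i (c.ends π).1 ≠ κ i (c.ends π).2 := by
  obtain ⟨h1, h2⟩ := GE.ends_ok96 hl.hM hc
  obtain ⟨h3, y, hy⟩ := GE.ends_ne96 hl.hM hc
  rw [hy] at h2 h3 ⊢
  rcases hx : (c.ends π).1 with σ | σ | x
  · exact (hl.nX hi h2 σ).symm
  · exact (hl.nY hi h2 σ).symm
  · rw [hx] at h1 h3
    intro h4
    exact h3 (by rw [(hl.kinj i hi i hi x y h1 h2 h4).2])

theorem LayD.grid_adj (hl : LayD a b p κ m K π) {i t : ℕ} (hi : i < K) (hit : i < t) {c : GE}
    (hc : c.valid π) : (GDt a b p κ m π t).Adj (κ i (c.ends π).1) (κ i (c.ends π).2) := by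
  unfold GDt
  rw [SimpleGraph.fromEdgeSet_adj]
  exact ⟨Or.inr ⟨i, hit, c, hc, rfl⟩, hl.grid_ne hi hc⟩

theorem LayD.grid' (hl : LayD a b p κ m K π) : ∀ i < K, HasGrid (GDt a b p κ m π K) (κ i) π :=
  fun i hi =>
  { hD := by have := hl.hD; omega
    hM := hl.hM
    adj := fun _ hc => hl.grid_adj hi hi hc
    inj := fun x y hx hy h => (hl.kinj i hi i hi x y hx hy h).2
    nX := fun _ σ hx => hl.nX hi hx σ
    nY := fun _ σ hx => hl.nY hi hx σ }

/-- a drawn grid is a good kite: the result of the analysis of the threads -/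
def GDGood (H : SimpleGraph V) (a b : V) (κ : GX → V) (π : Par) : Prop :=
  ∀ (f : V → ℂ) (X Y : ℂ → ℝ) (E F a' b' : ℝ), IsRAC H f → Fr X Y →
    GDraw H (fun v => X (f v)) (fun v => Y (f v)) E F a' b' κ π →
    (∀ v y, (NE (fun v => X (f v)) (fun v => Y (f v)) v ∨
          SE (fun v => X (f v)) (fun v => Y (f v)) b' v ∨
          NW (fun v => X (f v)) (fun v => Y (f v)) a' v) →
        H.Adj v y → CoreH H a b y → Cor κ y) →
    ∃ A₀ A₁ A₂, GoodK H f a b κ π A₀ A₁ A₂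

theorem good_aux (hl : LayD a b p κ m K π) {H : SimpleGraph V} (hle : GDt a b p κ m π K ≤ H)
    {f : V → ℂ} (h : Nm H f a b) {i : ℕ} (hi : 19 ≤ i) (hiK : i + 20 ≤ K)
    (hG : GDGood H a b (κ i) π) {ε : ℤ}
    (hε : ε = 1 ∨ ε = -1) (him : ∀ j, i ≤ j + 19 → j ≤ i + 21 → 0 < (f (p j)).im)
    (hn : ∀ s : ℤ, -20 ≤ s → s ≤ 19 → Nest (f (p ((i : ℤ) + 1 + ε * s).toNat))
      (f (p ((i : ℤ) + 1 + ε * (s + 1)).toNat))) :
    ∃ A₀ A₁ A₂, GoodK H f a b (κ i) π A₀ A₁ A₂ := by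
  have hm := hl.hm
  have hcore := hl.core3
  set w : ℤ → V := fun s => p ((i : ℤ) + 1 + ε * s).toNat with hw
  -- indices
  have hidx : ∀ s : ℤ, -20 ≤ s → s ≤ 20 → ((i : ℤ) + 1 + ε * s).toNat < m ∧
      i ≤ ((i : ℤ) + 1 + ε * s).toNat + 19 ∧ ((i : ℤ) + 1 + ε * s).toNat ≤ i + 21 := by
    intro s e1 e2
    rcases hε with rfl | rfl <;> omega
  have hG1 : ∀ s : ℤ, -20 ≤ s → s ≤ 19 → H.Adj (w s) (w (s + 1)) := by
    intro s e1 e2
    simp only [hw]
    rcases hε with rfl | rfl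
    · have e3 : ((i : ℤ) + 1 + 1 * (s + 1)).toNat = ((i : ℤ) + 1 + 1 * s).toNat + 1 := by omega
      rw [e3]
      exact hle (hcore.h1 _ (by omega))
    · have e3 : ((i : ℤ) + 1 + -1 * s).toNat = ((i : ℤ) + 1 + -1 * (s + 1)).toNat + 1 := by omega
      rw [e3]
      exact (hle (hcore.h1 _ (by omega))).symm
  have hG2 : ∀ s : ℤ, -20 ≤ s → s ≤ 18 → H.Adj (w s) (w (s + 2)) := by
    intro s e1 e2
    simp only [hw]
    rcases hε with rfl | rfl
    · have e3 : ((i : ℤ) + 1 + 1 * (s + 2)).toNat = ((i : ℤ) + 1 + 1 * s).toNat + 2 := by omega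
      rw [e3]
      exact hle (hcore.h2 _ (by omega))
    · have e3 : ((i : ℤ) + 1 + -1 * s).toNat = ((i : ℤ) + 1 + -1 * (s + 2)).toNat + 2 := by omega
      rw [e3]
      exact (hle (hcore.h2 _ (by omega))).symm
  obtain ⟨q, hwin⟩ := h.winR (w := w) (R := 20)
    (fun s e1 e2 => him _ (hidx s e1 e2).2.1 (hidx s e1 e2).2.2)
    (fun s e1 e2 => (hle (hcore.ha _ (hidx s e1 e2).1)).symm)
    (fun s e1 e2 => (hle (hcore.hb _ (hidx s e1 e2).1)).symm)
    (fun s e1 e2 => hn s e1 (by omega))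
    (fun s e1 e2 => hG1 s e1 (by omega))
    (fun s e1 e2 => by
      have := hG2 (s - 1) (by omega) (by omega)
      have e3 : s - 1 + 2 = s + 1 := by ring
      rwa [e3] at this)
  have hgrid := (hl.grid' i (by omega)).mono hle
  have hE : κ i (.X true) = w ε := by
    rw [hl.kE i (by omega)]
    simp only [hw]
    congr 1
    rcases hε with rfl | rfl <;> omega
  have hW : κ i (.Y true) = w (-ε) := by
    rw [hl.kW i (by omega)]
    simp only [hw]
    congr 1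
    rcases hε with rfl | rfl <;> omega
  have hS : κ i (.Y false) = w 0 := by
    rw [hl.kS i (by omega)]
    simp only [hw]
    congr 1
    omega
  obtain ⟨X, Y, E, F, a', b', hfr, hgd, hco⟩ := win_gdraw hwin hgrid.net hε hE hW hS
    (by
      rw [hl.kN i (by omega)]
      split_ifs
      · exact Or.inr rfl
      · exact Or.inl rfl)
    (by
      intro s s' h1 h2 h3 h4 heq
      have k1 := hidx s h1 h2
      have k2 := hidx s' h3 h4
      have := hl.pinj _ k1.1 _ k2.1 heq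
      rcases hε with rfl | rfl <;> omega)
    (by
      intro x hx _
      obtain ⟨h1, h2, h3⟩ := hl.nc i (by omega) x hx
      exact ⟨h1, h2, fun s e1 e2 => h3 _ (hidx s e1 e2).1⟩)
  exact hG f X Y E F a' b' h.rac hfr hgd hco

/-- **The good kites.** -/
theorem good_kites_of (hl : LayD a b p κ m K π) {H : SimpleGraph V}
    (hle : GDt a b p κ m π K ≤ H) {g : V → ℂ} (hg : Nm H g a b)
    (hG : ∀ i < K, HasGrid H (κ i) π → GDGood H a b (κ i) π) :
    ∃ B : Finset ℕ, B.card ≤ 10 ∧ ∀ i, 19 ≤ i → i + 20 ≤ K →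
      (∀ j, i ≤ j + 19 → j ≤ i + 21 → j ∉ B) →
      ∃ A₀ A₁ A₂, GoodK H g a b (κ i) π A₀ A₁ A₂ := by
  have hm := hl.hm
  have hcore : Core H a b p m :=
    ⟨fun i hi => hle (hl.core3.ha i hi), fun i hi => hle (hl.core3.hb i hi), hl.pinj,
      fun i hi => hle (hl.core3.h1 i hi), fun i hi => hle (hl.core3.h2 i hi)⟩
  obtain ⟨B, hB, hwin⟩ := Pool.Agent.Helper82.DG.windows hg hcore
  refine ⟨B, hB, ?_⟩
  intro i hi hiK hiB
  have hGi : GDGood H a b (κ i) π := hG i (by omega) ((hl.grid' i (by omega)).mono hle)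
  obtain ⟨g', hgg, hg', him, hmono⟩ := hwin (i - 19) 40 (by omega) (by omega)
    (fun j h1 h2 => hiB j (by omega) (by omega))
  have key : ∃ A₀ A₁ A₂, GoodK H g' a b (κ i) π A₀ A₁ A₂ := by
    rcases hmono with hmono | hmono
    · refine good_aux hl hle hg' hi hiK hGi (ε := 1) (Or.inl rfl)
        (fun j h1 h2 => him j (by omega) (by omega)) ?_
      intro s e1 e2
      have e3 : ((i : ℤ) + 1 + 1 * (s + 1)).toNat = ((i : ℤ) + 1 + 1 * s).toNat + 1 := by omega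
      rw [e3]
      exact hmono _ (by omega) (by omega)
    · refine good_aux hl hle hg' hi hiK hGi (ε := -1) (Or.inr rfl)
        (fun j h1 h2 => him j (by omega) (by omega)) ?_
      intro s e1 e2
      have e3 : ((i : ℤ) + 1 + -1 * s).toNat = ((i : ℤ) + 1 + -1 * (s + 1)).toNat + 1 := by omega
      rw [e3]
      exact hmono _ (by omega) (by omega)
  rcases hgg with rfl | rfl
  · exact key
  · obtain ⟨A₀, A₁, A₂, hA⟩ := key
    exact hA.conj96

end

end Pool.Agent.Helper58.DG3
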